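import Pool.Agent.Lib_helper33.ASM.TStmts

/-!
# T1: the law of the states of disjoint cells
-/

set_option autoImplicit false
set_option linter.unusedSectionVars false

open scoped BigOperators ENNReal
open MeasureTheory
open Pool.Agent.Lib_helper33.ASM

namespace Pool.Agent.Lib_helper9.ASM

variable {d : ℕ}

/-- `n` is the only index with a point in `A` -/
def UN (x : ℕ → Sp d) (A : Set (Sp d)) (n : ℕ) : Prop := x n ∈ A ∧ ∀ k, x k ∈ A → k = n

theorem UN_unique {x : ℕ → Sp d} {A : Set (Sp d)} {n k : ℕ} (h : UN x A n) (h' : UN x A k) :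
    n = k := h'.2 n h.1

theorem st_of_UN {x : ℕ → Sp d} {c : ℕ → Bool} {A : Set (Sp d)} {n : ℕ} (h : UN x A n) :
    st x c A = some (c n) := by
  have hex : ∃! n, x n ∈ A := ⟨n, h.1, fun k hk => h.2 k hk⟩
  have h1 : hex.choose = n := h.2 _ hex.choose_spec.1
  unfold st
  rw [dif_pos hex, h1]

theorem st_of_none {x : ℕ → Sp d} {c : ℕ → Bool} {A : Set (Sp d)} (h : ∀ n, ¬ UN x A n) :
    st x c A = none := by
  have hex : ¬ ∃! n, x n ∈ A := by
    rintro ⟨n, hn, hu⟩
    exact h n ⟨hn, fun k hk => hu k hk⟩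
  unfold st
  rw [dif_neg hex]

theorem st_eq_none_iff {x : ℕ → Sp d} {c : ℕ → Bool} {A : Set (Sp d)} :
    st x c A = none ↔ ∀ n, ¬ UN x A n := by
  constructor
  · intro h n hn
    rw [st_of_UN hn] at h
    exact absurd h (by simp)
  · exact st_of_none

theorem st_eq_some_iff {x : ℕ → Sp d} {c : ℕ → Bool} {A : Set (Sp d)} {b : Bool} :
    st x c A = some b ↔ ∃ n, UN x A n ∧ c n = b := by
  constructor
  · intro h
    by_cases hn : ∃ n, UN x A n
    · obtain ⟨n, hn⟩ := hn
      rw [st_of_UN hn] at h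
      exact ⟨n, hn, by simpa using h⟩
    · rw [st_of_none (fun n h' => hn ⟨n, h'⟩)] at h
      exact absurd h (by simp)
  · rintro ⟨n, hn, rfl⟩
    exact st_of_UN hn

theorem NN_eq_one_iff {x : ℕ → Sp d} {A : Set (Sp d)} : NN x A = 1 ↔ ∃ n, UN x A n := by
  unfold NN
  rw [Set.encard_eq_one]
  constructor
  · rintro ⟨n, hn⟩
    refine ⟨n, ?_, ?_⟩
    · have : n ∈ {n | x n ∈ A} := by rw [hn]; exact Set.mem_singleton n
      exact this
    · intro k hk
      have : k ∈ {n | x n ∈ A} := hk
      rw [hn] at this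
      exact this
  · rintro ⟨n, h1, h2⟩
    refine ⟨n, Set.eq_singleton_iff_unique_mem.2 ⟨h1, fun k hk => h2 k hk⟩⟩

theorem measurableSet_UN {A : Set (Sp d)} (hA : MeasurableSet A) (n : ℕ) :
    MeasurableSet {x : ℕ → Sp d | UN x A n} := by
  have h1 : {x : ℕ → Sp d | UN x A n} =
      {x : ℕ → Sp d | x n ∈ A} ∩ ⋂ k : ℕ, {x : ℕ → Sp d | x k ∈ A → k = n} := by
    ext x
    simp [UN]
  rw [h1]
  refine ((measurable_pi_apply n) hA).inter (MeasurableSet.iInter fun k => ?_)
  by_cases hk : k = n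
  · simp [hk]
  · have : {x : ℕ → Sp d | x k ∈ A → k = n} = (fun x : ℕ → Sp d => x k) ⁻¹' Aᶜ := by
      ext x
      simp [hk]
    rw [this]
    exact (measurable_pi_apply k) hA.compl

section law

variable {p : ℝ} {Ω : Type} [MeasurableSpace Ω] {P : Measure Ω} [IsProbabilityMeasure P]
  {X : ℕ → Ω → Sp d} {c : ℕ → Ω → Bool}

theorem meas_seq (h : IsColouredPoisson P p X c) : Measurable (fun ω => fun n => X n ω) :=
  measurable_pi_lambda _ fun n => h.meas_X n

theorem meas_UN (h : IsColouredPoisson P p X c) {A : Set (Sp d)} (hA : MeasurableSet A) (n : ℕ) :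
    MeasurableSet {ω | UN (fun n => X n ω) A n} :=
  (meas_seq h) (measurableSet_UN hA n)

theorem meas_st (h : IsColouredPoisson P p X c) {A : Set (Sp d)} (hA : MeasurableSet A)
    (o : Option Bool) :
    MeasurableSet {ω | st (fun n => X n ω) (fun n => c n ω) A = o} := by
  cases o with
  | none =>
    have h1 : {ω | st (fun n => X n ω) (fun n => c n ω) A = none} =
        ⋂ n : ℕ, {ω | UN (fun n => X n ω) A n}ᶜ := by
      ext ω
      simp [st_eq_none_iff]
    rw [h1]
    exact MeasurableSet.iInter fun n => (meas_UN h hA n).compl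
  | some b =>
    have h1 : {ω | st (fun n => X n ω) (fun n => c n ω) A = some b} =
        ⋃ n : ℕ, ({ω | UN (fun n => X n ω) A n} ∩ {ω | c n ω = b}) := by
      ext ω
      simp [st_eq_some_iff]
    rw [h1]
    refine MeasurableSet.iUnion fun n => (meas_UN h hA n).inter ?_
    exact (h.meas_c n) (MeasurableSet.singleton b)

variable {ι : Type} [Fintype ι] [DecidableEq ι] {C : ι → Set (Sp d)} {m : ℝ}

/-- probability that the cells in a finite set all contain exactly one point -/
theorem prob_one (h : IsColouredPoisson P p X c) (hm : 0 < m) (hC : ∀ s, MeasurableSet (C s))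
    (hv : ∀ s, volume (C s) = ENNReal.ofReal m) (hd : ∀ s s', s ≠ s' → Disjoint (C s) (C s'))
    (J : Finset ι) :
    P {ω | ∀ s ∈ J, ∃ n, UN (fun n => X n ω) (C s) n} =
      ENNReal.ofReal ((m * Real.exp (-m)) ^ J.card) := by
  have key := h.counts J.card (fun i => C ((J.equivFin.symm i : J) : ι)) (fun _ => 1)
    (fun i => hC _) (fun i => by rw [hv]; exact ENNReal.ofReal_ne_top)
    (fun i j hij => hd _ _ (fun h' => hij (J.equivFin.symm.injective (Subtype.ext h'))))
  have h1 : {ω | ∀ i : Fin J.card, NN (fun n => X n ω) (C ((J.equivFin.symm i : J) : ι)) = (1 : ℕ)} =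
      {ω | ∀ s ∈ J, ∃ n, UN (fun n => X n ω) (C s) n} := by
    ext ω
    simp only [Set.mem_ofPred_eq, Nat.cast_one, NN_eq_one_iff]
    constructor
    · intro hω s hs
      have := hω (J.equivFin ⟨s, hs⟩)
      simpa using this
    · intro hω i
      exact hω _ (J.equivFin.symm i).2
  rw [h1] at key
  rw [key]
  congr 1
  simp only [hv, poi, ENNReal.toReal_ofReal hm.le, pow_one, Nat.factorial_one, Nat.cast_one,
    div_one, Finset.prod_const, Finset.card_univ, Fintype.card_fin]
  rw [mul_comm]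

theorem meas_ex (h : IsColouredPoisson P p X c) {A : Set (Sp d)} (hA : MeasurableSet A) :
    MeasurableSet {ω | ∃ n, UN (fun n => X n ω) A n} := by
  have : {ω | ∃ n, UN (fun n => X n ω) A n} = ⋃ n, {ω | UN (fun n => X n ω) A n} := by
    ext ω
    simp
  rw [this]
  exact MeasurableSet.iUnion fun n => meas_UN h hA n

/-- probability that the cells in `J` contain exactly one point and the cells in `K` do not -/
theorem prob_both (h : IsColouredPoisson P p X c) (hm : 0 < m) (hC : ∀ s, MeasurableSet (C s))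
    (hv : ∀ s, volume (C s) = ENNReal.ofReal m) (hd : ∀ s s', s ≠ s' → Disjoint (C s) (C s'))
    (K : Finset ι) : ∀ J : Finset ι, Disjoint J K →
    (P {ω | (∀ s ∈ J, ∃ n, UN (fun n => X n ω) (C s) n) ∧
      ∀ s ∈ K, ¬ ∃ n, UN (fun n => X n ω) (C s) n}).toReal =
      (m * Real.exp (-m)) ^ J.card * (1 - m * Real.exp (-m)) ^ K.card := by
  induction K using Finset.induction_on with
  | empty =>
    intro J _
    have h1 := prob_one h hm hC hv hd J
    simp only [Finset.notMem_empty, false_imp_iff, implies_true, and_true, Finset.card_empty,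
      pow_zero, mul_one]
    rw [h1, ENNReal.toReal_ofReal (by positivity)]
  | insert t K htK ih =>
    intro J hJ
    have htJ : t ∉ J := fun ht => Finset.disjoint_left.1 hJ ht (Finset.mem_insert_self t K)
    have hJK : Disjoint J K := Finset.disjoint_of_subset_right (Finset.subset_insert t K) hJ
    have hJK' : Disjoint (insert t J) K := by
      rw [Finset.disjoint_insert_left]
      exact ⟨htK, hJK⟩
    have e1 := ih J hJK
    have e2 := ih (insert t J) hJK'
    rw [Finset.card_insert_of_notMem htJ] at e2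
    rw [Finset.card_insert_of_notMem htK]
    set S : Set Ω := {ω | (∀ s ∈ J, ∃ n, UN (fun n => X n ω) (C s) n) ∧
      ∀ s ∈ K, ¬ ∃ n, UN (fun n => X n ω) (C s) n} with hS
    set T : Set Ω := {ω | ∃ n, UN (fun n => X n ω) (C t) n} with hT
    have hTm : MeasurableSet T := meas_ex h (hC t)
    have h1 : {ω | (∀ s ∈ insert t J, ∃ n, UN (fun n => X n ω) (C s) n) ∧
      ∀ s ∈ K, ¬ ∃ n, UN (fun n => X n ω) (C s) n} = S ∩ T := by
      ext ω
      simp only [hS, hT, Finset.mem_insert, forall_eq_or_imp, Set.mem_ofPred_eq, Set.mem_inter_iff]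
      tauto
    have h2 : {ω | (∀ s ∈ J, ∃ n, UN (fun n => X n ω) (C s) n) ∧
      ∀ s ∈ insert t K, ¬ ∃ n, UN (fun n => X n ω) (C s) n} = S \ T := by
      ext ω
      simp only [hS, hT, Finset.mem_insert, forall_eq_or_imp, Set.mem_ofPred_eq, Set.mem_sdiff]
      tauto
    rw [h1] at e2
    rw [h2]
    have h3 := measure_inter_add_sdiff (μ := P) S hTm
    have h4 : (P S).toReal = (P (S ∩ T)).toReal + (P (S \ T)).toReal := by
      rw [← h3, ENNReal.toReal_add (measure_ne_top _ _) (measure_ne_top _ _)]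
    rw [e1, e2] at h4
    have : (P (S \ T)).toReal = (m * Real.exp (-m)) ^ J.card * (1 - m * Real.exp (-m)) ^ K.card -
        (m * Real.exp (-m)) ^ (J.card + 1) * (1 - m * Real.exp (-m)) ^ K.card := by
      linarith
    rw [this]
    ring

/-- the colour of the state, `true` if there is none -/
def col (o : Option Bool) : Bool := o.getD true

/-- the event that `σ s` is the only point in the cell `s` for all `s` with `η s ≠ none`, and the
other cells do not contain exactly one point, as a set of sequences -/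
def EvS (C : ι → Set (Sp d)) (η : Cfg ι) (σ : {s : ι // η s ≠ none} → ℕ) : Set (ℕ → Sp d) :=
  {x | (∀ s : {s : ι // η s ≠ none}, UN x (C s) (σ s)) ∧ ∀ s, η s = none → ∀ n, ¬ UN x (C s) n}

theorem measurableSet_EvS (hC : ∀ s, MeasurableSet (C s)) (η : Cfg ι)
    (σ : {s : ι // η s ≠ none} → ℕ) : MeasurableSet (EvS C η σ) := by
  have h1 : EvS C η σ = (⋂ s : {s : ι // η s ≠ none}, {x | UN x (C s) (σ s)}) ∩
      ⋂ s : {s : ι // η s = none}, ⋂ n : ℕ, {x | UN x (C s) n}ᶜ := by
    ext x
    simp [EvS]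
  rw [h1]
  have h2 : MeasurableSet (⋂ s : {s : ι // η s ≠ none}, {x : ℕ → Sp d | UN x (C s) (σ s)}) :=
    MeasurableSet.iInter fun s => measurableSet_UN (hC s.1) (σ s)
  have h3 : MeasurableSet
      (⋂ s : {s : ι // η s = none}, ⋂ n : ℕ, {x : ℕ → Sp d | UN x (C s) n}ᶜ) :=
    MeasurableSet.iInter fun s => MeasurableSet.iInter fun n =>
      (measurableSet_UN (hC s.1) n).compl
  exact h2.inter h3

theorem inj_of_EvS (hd : ∀ s s', s ≠ s' → Disjoint (C s) (C s')) {η : Cfg ι}
    {σ : {s : ι // η s ≠ none} → ℕ} {x : ℕ → Sp d} (hx : x ∈ EvS C η σ) :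
    Function.Injective σ := by
  intro s s' hss
  by_contra hne
  have hne' : (s : ι) ≠ s' := fun h => hne (Subtype.ext h)
  have h1 := (hx.1 s).1
  have h2 := (hx.1 s').1
  rw [hss] at h1
  exact Set.disjoint_left.1 (hd _ _ hne') h1 h2

theorem prob_sigma (h : IsColouredPoisson P p X c) (hC : ∀ s, MeasurableSet (C s))
    (hd : ∀ s s', s ≠ s' → Disjoint (C s) (C s')) (η : Cfg ι)
    (σ : {s : ι // η s ≠ none} → ℕ) :
    P {ω | (fun n => X n ω) ∈ EvS C η σ ∧
      ∀ s : {s : ι // η s ≠ none}, c (σ s) ω = col (η s)} =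
      P {ω | (fun n => X n ω) ∈ EvS C η σ} *
        ∏ s : {s : ι // η s ≠ none}, ENNReal.ofReal (if col (η s) then p else 1 - p) := by
  classical
  by_cases hσ : Function.Injective σ
  · set b : ℕ → Bool := fun n => if hn : ∃ s, σ s = n then col (η hn.choose) else true with hb
    have hbs : ∀ s, b (σ s) = col (η s) := by
      intro s
      have hn : ∃ s', σ s' = σ s := ⟨s, rfl⟩
      have : hn.choose = s := hσ hn.choose_spec
      simp only [hb]
      rw [dif_pos hn, this]
    have key := h.colours (Finset.univ.image σ) b (EvS C η σ) (measurableSet_EvS hC η σ)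
    have h1 : {ω | (fun n => X n ω) ∈ EvS C η σ ∧ ∀ n ∈ Finset.univ.image σ, c n ω = b n} =
        {ω | (fun n => X n ω) ∈ EvS C η σ ∧
          ∀ s : {s : ι // η s ≠ none}, c (σ s) ω = col (η s)} := by
      ext ω
      simp only [Finset.mem_image, Finset.mem_univ, true_and, forall_exists_index,
        forall_apply_eq_imp_iff, Set.mem_ofPred_eq, hbs]
    rw [h1] at key
    rw [key, Finset.prod_image (fun s _ s' _ hss => hσ hss)]
    simp only [hbs]
  · have h1 : {ω | (fun n => X n ω) ∈ EvS C η σ} = ∅ := by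
      ext ω
      simp only [Set.mem_ofPred_eq, Set.mem_empty_iff_false, iff_false]
      exact fun hx => hσ (inj_of_EvS hd hx)
    have h2 : {ω | (fun n => X n ω) ∈ EvS C η σ ∧
      ∀ s : {s : ι // η s ≠ none}, c (σ s) ω = col (η s)} = ∅ := by
      ext ω
      simp only [Set.mem_ofPred_eq, Set.mem_empty_iff_false, iff_false]
      exact fun hx => hσ (inj_of_EvS hd hx.1)
    rw [h1, h2]
    simp

theorem st_iff (η : Cfg ι) (x : ℕ → Sp d) (c : ℕ → Bool) :
    (∀ s, st x c (C s) = η s) ↔ ∃ σ : {s : ι // η s ≠ none} → ℕ, x ∈ EvS C η σ ∧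
      ∀ s : {s : ι // η s ≠ none}, c (σ s) = col (η s) := by
  classical
  constructor
  · intro h
    have h1 : ∀ s : {s : ι // η s ≠ none}, ∃ n, UN x (C s) n ∧ c n = col (η s) := by
      intro s
      obtain ⟨b, hb⟩ := Option.ne_none_iff_exists'.1 s.2
      have h2 := h s
      rw [hb] at h2 ⊢
      exact st_eq_some_iff.1 h2
    choose σ hσ using h1
    refine ⟨σ, ⟨fun s => (hσ s).1, fun s hs => ?_⟩, fun s => (hσ s).2⟩
    have h2 := h s
    rw [hs] at h2
    exact st_eq_none_iff.1 h2
  · rintro ⟨σ, ⟨h1, h2⟩, h3⟩ s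
    by_cases hs : η s = none
    · rw [hs]
      exact st_eq_none_iff.2 (h2 s hs)
    · obtain ⟨b, hb⟩ := Option.ne_none_iff_exists'.1 hs
      rw [hb]
      refine st_eq_some_iff.2 ⟨σ ⟨s, hs⟩, h1 ⟨s, hs⟩, ?_⟩
      have := h3 ⟨s, hs⟩
      simp only [hb] at this
      simpa [col] using this

theorem prod_wt (a p : ℝ) (η : Cfg ι) :
    pw a p η = (∏ s : {s : ι // η s ≠ none}, (if col (η s) then p else 1 - p)) *
      (a ^ (Finset.univ.filter (fun s => η s ≠ none)).card *
        (1 - a) ^ (Finset.univ.filter (fun s => η s = none)).card) := by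
  classical
  unfold pw
  rw [← Finset.prod_filter_mul_prod_filter_not Finset.univ (fun s => η s ≠ none)]
  have h1 : ∏ s ∈ Finset.univ.filter (fun s => η s ≠ none), wt a p (η s) =
      ∏ s ∈ Finset.univ.filter (fun s => η s ≠ none), ((if col (η s) then p else 1 - p) * a) := by
    refine Finset.prod_congr rfl fun s hs => ?_
    obtain ⟨b, hb⟩ := Option.ne_none_iff_exists'.1 (Finset.mem_filter.1 hs).2
    rw [hb]
    cases b
    · simp [wt, col, mul_comm]
    · simp [wt, col, mul_comm]
  have h2 : ∏ s ∈ Finset.univ.filter (fun s => ¬ η s ≠ none), wt a p (η s) =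
      ∏ s ∈ Finset.univ.filter (fun s => η s = none), (1 - a) := by
    have : Finset.univ.filter (fun s => ¬ η s ≠ none) = Finset.univ.filter (fun s => η s = none) := by
      ext s
      simp
    rw [this]
    refine Finset.prod_congr rfl fun s hs => ?_
    rw [(Finset.mem_filter.1 hs).2]
    simp [wt]
  rw [h1, h2, Finset.prod_mul_distrib, Finset.prod_const, Finset.prod_const]
  have h3 : ∏ s : {s : ι // η s ≠ none}, (if col (η s) then p else 1 - p) =
      ∏ s ∈ Finset.univ.filter (fun s => η s ≠ none), (if col (η s) then p else 1 - p) := by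
    rw [← Finset.prod_subtype_eq_prod_filter]
    simp
  rw [h3]
  ring

end law

theorem stmtT1 : StmtT1 := by
  intro d p hp hp1 Ω _ P _ X c h ι _ _ C m hm hC hv hd
  refine ⟨fun s o => meas_st h (hC s) o, fun η => ?_⟩
  classical
  set F : ({s : ι // η s ≠ none} → ℕ) → Set Ω := fun σ => {ω | (fun n => X n ω) ∈ EvS C η σ ∧
      ∀ s : {s : ι // η s ≠ none}, c (σ s) ω = col (η s)} with hF
  set G : ({s : ι // η s ≠ none} → ℕ) → Set Ω := fun σ => {ω | (fun n => X n ω) ∈ EvS C η σ}
    with hG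
  have hGm : ∀ σ, MeasurableSet (G σ) := fun σ => (meas_seq h) (measurableSet_EvS hC η σ)
  have hFm : ∀ σ, MeasurableSet (F σ) := by
    intro σ
    have : F σ = G σ ∩ ⋂ s : {s : ι // η s ≠ none}, {ω | c (σ s) ω = col (η s)} := by
      ext ω
      simp [hF, hG]
    rw [this]
    exact (hGm σ).inter (MeasurableSet.iInter fun s => (h.meas_c _) (MeasurableSet.singleton _))
  have hGd : Pairwise (Function.onFun Disjoint G) := by
    intro σ τ hστ
    rw [Function.onFun, Set.disjoint_left]
    intro ω h1 h2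
    exact hστ (funext fun s => UN_unique (h1.1 s) (h2.1 s))
  have hFG : ∀ σ, F σ ⊆ G σ := fun σ ω hω => hω.1
  have hFd : Pairwise (Function.onFun Disjoint F) := fun σ τ hστ =>
    (hGd hστ).mono (hFG σ) (hFG τ)
  have h1 : {ω | ∀ s, st (fun n => X n ω) (fun n => c n ω) (C s) = η s} = ⋃ σ, F σ := by
    ext ω
    simp only [Set.mem_ofPred_eq, Set.mem_iUnion]
    exact st_iff η _ _
  rw [h1, measure_iUnion hFd hFm]
  have h2 : ∀ σ, P (F σ) = P (G σ) *
      ∏ s : {s : ι // η s ≠ none}, ENNReal.ofReal (if col (η s) then p else 1 - p) :=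
    fun σ => prob_sigma h hC hd η σ
  simp_rw [h2]
  rw [ENNReal.tsum_mul_right, ← measure_iUnion hGd hGm]
  have h3 : (⋃ σ, G σ) = {ω | (∀ s ∈ Finset.univ.filter (fun s => η s ≠ none),
      ∃ n, UN (fun n => X n ω) (C s) n) ∧
      ∀ s ∈ Finset.univ.filter (fun s => η s = none), ¬ ∃ n, UN (fun n => X n ω) (C s) n} := by
    ext ω
    simp only [Set.mem_iUnion, hG, Set.mem_ofPred_eq, Finset.mem_filter, Finset.mem_univ, true_and,
      not_exists]
    constructor
    · rintro ⟨σ, h1, h2⟩
      exact ⟨fun s hs => ⟨_, h1 ⟨s, hs⟩⟩, h2⟩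
    · rintro ⟨h1, h2⟩
      choose σ hσ using h1
      exact ⟨fun s => σ s s.2, fun s => hσ s s.2, h2⟩
  have hdisj : Disjoint (Finset.univ.filter (fun s => η s ≠ none))
      (Finset.univ.filter (fun s => η s = none)) := by
    rw [Finset.disjoint_left]
    intro s h1 h2
    exact (Finset.mem_filter.1 h1).2 (Finset.mem_filter.1 h2).2
  have h4 := prob_both h hm hC hv hd (Finset.univ.filter (fun s => η s = none))
    (Finset.univ.filter (fun s => η s ≠ none)) hdisj
  rw [← h3] at h4
  have h5 : P (⋃ σ, G σ) = ENNReal.ofReal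
      ((m * Real.exp (-m)) ^ (Finset.univ.filter (fun s => η s ≠ none)).card *
        (1 - m * Real.exp (-m)) ^ (Finset.univ.filter (fun s => η s = none)).card) := by
    rw [← h4, ENNReal.ofReal_toReal (measure_ne_top _ _)]
  have hnn : ∀ s : {s : ι // η s ≠ none}, 0 ≤ (if col (η s) then p else 1 - p) := by
    intro s
    split_ifs
    · exact hp.le
    · linarith
  rw [h5, ← ENNReal.ofReal_prod_of_nonneg (fun s _ => hnn s), prod_wt, mul_comm,
    ← ENNReal.ofReal_mul (Finset.prod_nonneg fun s _ => hnn s)]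

end Pool.Agent.Lib_helper9.ASM
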